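import Pool.Agent.Helper94.US.Stm

set_option autoImplicit false

/-!
# Universal Skolem set of density one: the Leibniz rule and the piece F1b (helper83)
-/

namespace Pool.Agent.Helper83.US

open Polynomial Finset Pool.Agent.H692R2.USS Pool.Agent.TH997.US

/-- the sequence `C(n, i) w n` -/
def cw (i : ℕ) (w : ℕ → ℤ) : ℕ → ℤ := fun n => (n.choose i : ℤ) * w n

/-- the module of the sums `∑_{i < j} C(n, i) w_i n` with `w_i` annihilated by `g` -/
def K (g : ℤ[X]) (j : ℕ) : Submodule ℤ (ℕ → ℤ) :=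
  Submodule.span ℤ {f | ∃ i < j, ∃ w, Ann g w ∧ f = cw i w}

lemma cw_mem {g : ℤ[X]} {i j : ℕ} (h : i < j) {w : ℕ → ℤ} (hw : Ann g w) : cw i w ∈ K g j :=
  Submodule.subset_span ⟨i, h, w, hw, rfl⟩

lemma K_mono {g : ℤ[X]} {i j : ℕ} (h : i ≤ j) : K g i ≤ K g j := by
  apply Submodule.span_mono
  rintro f ⟨l, hl, w, hw, rfl⟩
  exact ⟨l, lt_of_lt_of_le hl h, w, hw, rfl⟩

lemma ann_E {g : ℤ[X]} {w : ℕ → ℤ} (hw : Ann g w) : Ann g (E ℤ w) := by
  have h := hw.aeval X
  rwa [aeval_X] at h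

lemma E_cw_zero (w : ℕ → ℤ) : E ℤ (cw 0 w) = cw 0 (E ℤ w) := by
  funext n
  simp [cw]

lemma E_cw_succ (i : ℕ) (w : ℕ → ℤ) :
    E ℤ (cw (i + 1) w) = cw (i + 1) (E ℤ w) + cw i (E ℤ w) := by
  funext n
  simp only [cw, E_apply, Pi.add_apply]
  rw [Nat.choose_succ_succ]
  push_cast
  ring

/-- the shift of `C(n, j) w` -/
lemma E_cw {g : ℤ[X]} (j : ℕ) {w : ℕ → ℤ} (hw : Ann g w) :
    E ℤ (cw j w) - cw j (E ℤ w) ∈ K g j := by
  cases j with
  | zero => rw [E_cw_zero, sub_self]; exact Submodule.zero_mem _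
  | succ i =>
    rw [E_cw_succ, add_sub_cancel_left]
    exact cw_mem (Nat.lt_succ_self i) (ann_E hw)

lemma E_K {g : ℤ[X]} {j : ℕ} {f : ℕ → ℤ} (hf : f ∈ K g j) : E ℤ f ∈ K g j := by
  unfold K at hf
  induction hf using Submodule.span_induction with
  | mem f hf =>
    obtain ⟨i, hi, w, hw, rfl⟩ := hf
    have h1 := K_mono hi.le (E_cw i hw)
    have h2 := cw_mem hi (ann_E hw)
    have h3 := Submodule.add_mem _ h1 h2
    rwa [sub_add_cancel] at h3
  | zero => rw [map_zero]; exact Submodule.zero_mem _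
  | add x y _ _ hx hy => rw [map_add]; exact Submodule.add_mem _ hx hy
  | smul a x _ hx => rw [map_smul]; exact Submodule.smul_mem _ _ hx

lemma aeval_cw {g : ℤ[X]} (j : ℕ) {w : ℕ → ℤ} (hw : Ann g w) (P : ℤ[X]) :
    aeval (E ℤ) P (cw j w) - cw j (aeval (E ℤ) P w) ∈ K g j := by
  have cw_add : ∀ a b : ℕ → ℤ, cw j (a + b) = cw j a + cw j b := by
    intro a b
    funext n
    simp only [cw, Pi.add_apply]
    ring
  have cw_smul : ∀ (c : ℤ) (a : ℕ → ℤ), cw j (c • a) = c • cw j a := by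
    intro c a
    funext n
    simp only [cw, Pi.smul_apply, smul_eq_mul]
    ring
  induction P using Polynomial.induction_on with
  | C a =>
    rw [aeval_C]
    have : ∀ f : ℕ → ℤ, (algebraMap ℤ (Module.End ℤ (ℕ → ℤ)) a) f = a • f := fun f => by
      rw [Module.algebraMap_end_apply]
    rw [this, this, cw_smul, sub_self]
    exact Submodule.zero_mem _
  | add p q hp hq =>
    rw [map_add, LinearMap.add_apply, LinearMap.add_apply, cw_add]
    have := Submodule.add_mem _ hp hq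
    rwa [← add_sub_add_comm] at this
  | monomial n a ih =>
    have e : ∀ f : ℕ → ℤ, aeval (E ℤ) (C a * X ^ (n + 1)) f =
        E ℤ (aeval (E ℤ) (C a * X ^ n) f) := by
      intro f
      have : (C a * X ^ (n + 1) : ℤ[X]) = X * (C a * X ^ n) := by ring
      rw [this, map_mul, Module.End.mul_apply, aeval_X]
    rw [e, e]
    set w' := aeval (E ℤ) (C a * X ^ n) w with hw'
    have hw2 : Ann g w' := hw.aeval _
    have h1 := E_K ih
    rw [map_sub] at h1
    have h2 := Submodule.add_mem _ h1 (E_cw j hw2)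
    rwa [sub_add_sub_cancel] at h2

lemma aeval_g_K {g : ℤ[X]} {j : ℕ} {f : ℕ → ℤ} (hf : f ∈ K g (j + 1)) :
    aeval (E ℤ) g f ∈ K g j := by
  unfold K at hf
  induction hf using Submodule.span_induction with
  | mem f hf =>
    obtain ⟨i, hi, w, hw, rfl⟩ := hf
    have h1 := K_mono (Nat.lt_succ_iff.1 hi) (aeval_cw i hw g)
    have h2 : cw i (aeval (E ℤ) g w) = 0 := by
      have : aeval (E ℤ) g w = 0 := hw
      rw [this]
      funext n
      simp [cw]
    rwa [h2, sub_zero] at h1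
  | zero => rw [map_zero]; exact Submodule.zero_mem _
  | add x y _ _ hx hy => rw [map_add]; exact Submodule.add_mem _ hx hy
  | smul a x _ hx => rw [map_smul]; exact Submodule.smul_mem _ _ hx

/-- the elements of `K g m` are annihilated by `g ^ m` -/
lemma ann_K {g : ℤ[X]} (m : ℕ) : ∀ {f : ℕ → ℤ}, f ∈ K g m → Ann (g ^ m) f := by
  induction m with
  | zero =>
    intro f hf
    have h0 : K g 0 = ⊥ := by
      unfold K
      rw [Submodule.span_eq_bot]
      rintro x ⟨i, hi, -⟩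
      exact absurd hi (Nat.not_lt_zero i)
    rw [h0, Submodule.mem_bot] at hf
    rw [hf]
    unfold Ann
    rw [map_zero]
  | succ m ih =>
    intro f hf
    have h1 := ih (aeval_g_K hf)
    unfold Ann at h1 ⊢
    rw [pow_succ, map_mul, Module.End.mul_apply]
    exact h1

theorem t_F1b : Pool.Agent.Helper94.US.F1b := by
  intro χ g u v m D hχ hg hu hv h0 n
  have hsum : Ann (g ^ m) (∑ j ∈ range m, cw j (v j)) := by
    refine ann_K m (Submodule.sum_mem _ fun j hj => ?_)
    rw [Finset.mem_range] at hj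
    exact cw_mem hj (hv j hj)
  have hd : Ann (χ * g ^ m) (D • u - ∑ j ∈ range m, cw j (v j)) :=
    ((hu.smul D).mul_right (g ^ m)).sub (hsum.mul_left χ)
  have hval : ∀ n, (D • u - ∑ j ∈ range m, cw j (v j)) n =
      D * u n - ∑ j ∈ range m, (n.choose j : ℤ) * v j n := by
    intro n
    rw [Pi.sub_apply, Pi.smul_apply, smul_eq_mul, Finset.sum_apply]
    rfl
  have h1 := hd.eq_zero (hχ.mul (hg.pow m)) (fun n hn => by
    rw [hχ.natDegree_mul (hg.pow m), hg.natDegree_pow] at hn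
    rw [hval, h0 n hn, sub_self]) n
  rw [hval] at h1
  linarith

end Pool.Agent.Helper83.US
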