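import Pool.Agent.Helper94.US.Stm

set_option autoImplicit false

/-!
# Universal Skolem set of density one: soundness of the coded certificates (helper83)
-/

namespace Pool.Agent.Helper83.US

open Polynomial Finset Pool.Agent.H692R2.USS Pool.Agent.TH997.US

/-- the polynomial coded by a list -/
noncomputable def PL (A : List Z) : ℤ[X] := ∑ i ∈ range A.length, C (iv (lc A i)) * X ^ i

lemma lc_of_le {A : List Z} {i : ℕ} (h : A.length ≤ i) : lc A i = (0, 0) := by
  unfold lc
  rw [List.getD_eq_getElem?_getD, List.getElem?_eq_none h]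
  rfl

lemma PL_coeff (A : List Z) (i : ℕ) : (PL A).coeff i = iv (lc A i) := by
  unfold PL
  rw [finsetSum_coeff]
  simp only [coeff_C_mul, coeff_X_pow]
  by_cases h : i < A.length
  · rw [Finset.sum_eq_single i]
    · simp
    · intro j _ hj
      rw [if_neg (Ne.symm hj), mul_zero]
    · intro hi
      exact absurd (Finset.mem_range.2 h) hi
  · rw [lc_of_le (not_lt.1 h), iv_zero, Finset.sum_eq_zero]
    intro j hj
    rw [Finset.mem_range] at hj
    rw [if_neg (by omega), mul_zero]

lemma PL_natDegree (A : List Z) : (PL A).natDegree ≤ A.length := by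
  rw [natDegree_le_iff_coeff_eq_zero]
  intro i hi
  rw [PL_coeff, lc_of_le hi.le, iv_zero]

lemma gc_iv (G : List Z) (i : ℕ) : iv (gc G i) = (PG G).coeff i := by
  rw [PG_coeff]
  unfold gc
  split_ifs <;> simp

lemma ez_iff (x y : Z) : ez x y ↔ iv x = iv y := by
  unfold ez iv
  omega

lemma lez_iff (x : Z) (k : ℕ) : lez x k ↔ |iv x| ≤ k := by
  unfold lez iv
  rw [abs_le]
  omega

lemma ne_iff (x : Z) : x.1 ≠ x.2 ↔ iv x ≠ 0 := by
  unfold iv
  omega

lemma big_iff (x : Z) (K : ℕ) : ¬ (x.2 + K ≤ x.1 ∨ x.1 + K ≤ x.2) ↔ |iv x| < K := by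
  unfold iv
  rw [abs_lt]
  omega

/-- the coefficients of a product -/
lemma coeff_mul' (a b : ℤ[X]) (i : ℕ) :
    (a * b).coeff i = ∑ x ∈ range (i + 1), a.coeff x * b.coeff (i - x) := by
  rw [coeff_mul, Finset.Nat.sum_antidiagonal_eq_sum_range_succ (fun x y => a.coeff x * b.coeff y)]

lemma bez_of {G Sg Tg : List Z} {R : Z}
    (h : ∀ i < G.length + Sg.length + Tg.length + 2, BezAt G Sg Tg R i) :
    PL Sg * PG G + PL Tg * derivative (PG G) = C (iv R) := by
  ext i
  by_cases hi : i < G.length + Sg.length + Tg.length + 2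
  · have h1 := h i hi
    unfold BezAt at h1
    rw [ez_iff, iv_za, iv_zsum, iv_zsum] at h1
    rw [coeff_add, coeff_mul', coeff_mul', coeff_C]
    have e1 : ∑ x ∈ range (i + 1), (PL Sg).coeff x * (PG G).coeff (i - x) =
        ∑ a ∈ range (i + 1), iv (zm (lc Sg a) (gc G (i - a))) := by
      refine Finset.sum_congr rfl fun x _ => ?_
      rw [iv_zm, PL_coeff, gc_iv]
    have e2 : ∑ x ∈ range (i + 1), (PL Tg).coeff x * (derivative (PG G)).coeff (i - x) =
        ∑ a ∈ range (i + 1), iv (zm (lc Tg a) (zm (i - a + 1, 0) (gc G (i - a + 1)))) := by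
      refine Finset.sum_congr rfl fun x _ => ?_
      rw [iv_zm, iv_zm, PL_coeff, gc_iv, coeff_derivative, iv_nat]
      push_cast
      ring
    rw [e1, e2, h1]
    split_ifs <;> simp
  · have h1 : (PL Sg * PG G).coeff i = 0 := by
      apply coeff_eq_zero_of_natDegree_lt
      refine lt_of_le_of_lt natDegree_mul_le ?_
      have := PL_natDegree Sg
      rw [PG_natDegree]
      omega
    have h2 : (PL Tg * derivative (PG G)).coeff i = 0 := by
      apply coeff_eq_zero_of_natDegree_lt
      refine lt_of_le_of_lt natDegree_mul_le ?_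
      have h3 := PL_natDegree Tg
      have h4 := natDegree_derivative_le (PG G)
      rw [PG_natDegree] at h4
      omega
    rw [coeff_add, h1, h2, coeff_C, if_neg (by omega), add_zero]

lemma per_of {G Q W : List Z} {p0 T : ℕ}
    (h : ∀ i < G.length + Q.length + W.length + T + 2, PerAt G Q W p0 T i) :
    (X : ℤ[X]) ^ T - 1 = PG G * PL Q + C (p0 : ℤ) * PL W := by
  ext i
  rw [coeff_sub, coeff_add, coeff_C_mul, coeff_X_pow, coeff_one]
  by_cases hi : i < G.length + Q.length + W.length + T + 2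
  · have h1 := h i hi
    unfold PerAt at h1
    rw [ez_iff, iv_za, iv_za, iv_zsum, iv_zm, iv_nat] at h1
    rw [coeff_mul', PL_coeff]
    have e1 : ∑ x ∈ range (i + 1), (PG G).coeff x * (PL Q).coeff (i - x) =
        ∑ a ∈ range (i + 1), iv (zm (gc G a) (lc Q (i - a))) := by
      refine Finset.sum_congr rfl fun x _ => ?_
      rw [iv_zm, PL_coeff, gc_iv]
    rw [e1]
    have e2 : iv (if i = T then ((1 : ℕ), (0 : ℕ)) else (0, 0)) = if i = T then 1 else 0 := by
      split_ifs <;> simp
    have e3 : iv (if i = 0 then ((1 : ℕ), (0 : ℕ)) else (0, 0)) = if i = 0 then 1 else 0 := by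
      split_ifs <;> simp
    rw [e2, e3] at h1
    linarith
  · have h1 : (PG G * PL Q).coeff i = 0 := by
      apply coeff_eq_zero_of_natDegree_lt
      refine lt_of_le_of_lt natDegree_mul_le ?_
      have := PL_natDegree Q
      rw [PG_natDegree]
      omega
    have h2 : (PL W).coeff i = 0 := by
      apply coeff_eq_zero_of_natDegree_lt
      have := PL_natDegree W
      omega
    rw [h1, h2, if_neg (by omega), if_neg (by omega)]
    ring

theorem t_F1c : Pool.Agent.Helper94.US.F1c := by
  intro hF1a hF1b p k m D p0 T Vb Bd G Sg Tg Q W R V hlen hlen1 hchk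
  obtain ⟨hk5, hG1, hGk, hGc, hG0, hbez, hR0, hRk, hm1, hmk, hD1, hV, hVb, hdec, hp0, hp03, hT1, hTk,
    hper, hsmall⟩ := hchk
  have hVl : ∀ j < m, (V.getD j []).length = G.length := fun j hj => (hV j hj).1
  have hann : ∀ j < m, Ann (PG G) (fun n => iv (run G (V.getD j []) n)) := by
    intro j hj
    exact run_ann (by rw [hVl j hj]; exact hG1) (hVl j hj)
  have hlF : p.2.length = (Pool.Agent.H884R2.Sko.Fq p.1).length := by
    rw [Pool.Agent.H884R2.Sko.Fq_length, hlen]
  have hu : Ann (PG (Pool.Agent.H884R2.Sko.Fq p.1)) (sq p) :=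
    run_ann (by rw [← hlen]; exact hlen1) hlF
  have hdec' : ∀ n : ℕ, (D : ℤ) * sq p n =
      ∑ j ∈ range m, (n.choose j : ℤ) * iv (run G (V.getD j []) n) := by
    refine hF1b (PG (Pool.Agent.H884R2.Sko.Fq p.1)) (PG G) (sq p)
      (fun j n => iv (run G (V.getD j []) n)) m D (PG_monic _) (PG_monic _) hu hann ?_
    intro n hn
    rw [PG_natDegree, PG_natDegree, Pool.Agent.H884R2.Sko.Fq_length] at hn
    have h1 := hdec n hn
    unfold DecAt at h1
    rw [ez_iff, iv_zm, iv_nat, iv_zsum] at h1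
    unfold Pool.Agent.TH997.US.sq
    rw [h1]
    refine Finset.sum_congr rfl fun j _ => ?_
    rw [iv_zm, iv_nat]
  refine ⟨PG G, PL Sg, PL Tg, PL Q, PL W, iv R, fun j n => iv (run G (V.getD j []) n), ?_, ?_⟩
  · refine ⟨PG_monic G, ?_, ?_, ?_, bez_of hbez, (ne_iff R).1 hR0, (lez_iff R k).1 hRk, hm1, hmk, hD1,
      hann, hdec', ?_, hp0, hp03, hT1, hTk, per_of hper⟩
    · rw [PG_natDegree]
      exact hGk
    · intro i
      rw [PG_coeff]
      split_ifs with h1 h2
      · exact (lez_iff _ _).1 (hGc i h1)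
      · simp
        omega
      · simp
    · rw [PG_coeff, if_pos (by omega)]
      exact (ne_iff _).1 hG0
    · intro j hj b
      have h1 := hF1a G (V.getD j []) k Vb (by omega) hG1 hGk (hVl j hj) hGc
        (hV j hj).2 b
      have h2 : ((m * m.factorial * Vb : ℕ) : ℤ) < ((2 ^ k : ℕ) : ℤ) := by exact_mod_cast hVb
      push_cast at h2
      have h3 : (0 : ℤ) < 2 ^ (k * b) := by positivity
      calc (m : ℤ) * m.factorial * |iv (run G (V.getD j []) b)|
          ≤ (m : ℤ) * m.factorial * ((Vb : ℤ) * 2 ^ (k * b)) := by gcongr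
        _ = (m : ℤ) * m.factorial * (Vb : ℤ) * 2 ^ (k * b) := by ring
        _ < 2 ^ k * 2 ^ (k * b) := by
            exact mul_lt_mul_of_pos_right h2 h3
        _ = 2 ^ (k * (b + 1)) := by rw [← pow_add]; congr 1; ring
  · intro r hr
    obtain ⟨j, hj, l, -, h1, h2⟩ := hsmall r hr
    refine ⟨j, hj, l, (ne_iff _).1 h1, ?_⟩
    have h3 := (big_iff _ _).1 h2
    push_cast at h3
    exact h3

end Pool.Agent.Helper83.US
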